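import Pool.Agent.X40.VAR.V23

/-!
At the distance `λ log X` from `√(-a)`, however large `λ` is, a positive proportion of the integers
`-X ≤ a ≤ -1` has no prime `|n² + a|` at all, and, however small `λ` is, a positive proportion has at
least `k` of them, for every `k`.

Method: the first two moments of the number of these primes over the `a` in a residue class modulo
`W = ∏_{p ≤ w} p` (`Pool/Agent/X40/VAR/V15`). In the class in which `-a` is a square modulo all
`p ≤ w` the mean value is smaller than any given number; in a class in which it is a nonresidue modulo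
all odd `p ≤ w` the mean value `μ` is larger than any given number, and the variance is at most
`μ + (2 / w) μ²`.
-/

set_option autoImplicit false

namespace Pool.Agent.Results.MP_391708_nt.NoneOrManyAtScaleLog

open Finset Filter Topology

/-- the number of integers `n ≥ 0` with `|n - √(-a)| ≤ R` such that `|n² + a|` is a prime -/
noncomputable def P (a : ℤ) (R : ℝ) : ℕ :=
  {n : ℕ | |(n : ℝ) - √(-(a : ℝ))| ≤ R ∧ Nat.Prime ((n : ℤ) ^ 2 + a).natAbs}.ncard

lemma P_eq (K : ℕ) (R : ℝ) : (P (-(K : ℤ)) R : ℝ) = Pool.Agent.X40.VAR.NL R K := by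
  classical
  have hset : {n : ℕ | |(n : ℝ) - √(-((-(K : ℤ) : ℤ) : ℝ))| ≤ R ∧ Nat.Prime ((n : ℤ) ^ 2 + -(K : ℤ)).natAbs} =
      (((range (⌊√(K : ℝ) + R⌋₊ + 1)).filter (fun n : ℕ => |(n : ℝ) - √(K : ℝ)| ≤ R)).filter
        (fun n : ℕ => Nat.Prime ((n : ℤ) ^ 2 - K).natAbs) : Finset ℕ) := by
    ext n
    have e : (-((-(K : ℤ) : ℤ) : ℝ)) = (K : ℝ) := by push_cast; ring
    simp only [Set.mem_ofPred_eq, coe_filter, mem_filter, mem_range, e, ← sub_eq_add_neg]
    constructor
    · rintro ⟨h1, h2⟩
      refine ⟨⟨?_, h1⟩, h2⟩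
      rw [Nat.lt_succ_iff]
      apply Nat.le_floor
      linarith [(abs_le.1 h1).2]
    · rintro ⟨⟨-, h1⟩, h2⟩
      exact ⟨h1, h2⟩
  unfold P
  rw [hset, Set.ncard_coe_finset]
  unfold Pool.Agent.X40.VAR.NL Pool.Agent.X40.HLK.P1
  rw [sum_boole]

/-- **No primes and many primes `|n² + a|` near `√(-a)`.** For every `λ > 0` and every `k` there is
`c > 0` such that for all large `X` at least `c X` of the integers `-X ≤ a ≤ -1` have no prime
`|n² + a|` with `|n - √(-a)| ≤ λ log X`, and at least `c X` of them have `k` or more. -/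
theorem result : ∀ (lam : ℝ) (k : ℕ), 0 < lam → ∃ c : ℝ, 0 < c ∧ ∃ X₀ : ℕ, ∀ X : ℕ, X₀ ≤ X →
    c * X ≤ #((Icc (-(X : ℤ)) (-1)).filter (fun a : ℤ => P a (lam * Real.log X) = 0)) ∧
    c * X ≤ #((Icc (-(X : ℤ)) (-1)).filter (fun a : ℤ => k ≤ P a (lam * Real.log X))) := by
  intro lam k hlam
  obtain ⟨c1, hc1, X1, h1⟩ := Pool.Agent.X40.VAR.none_pos lam hlam
  obtain ⟨c2, hc2, X2, h2⟩ := Pool.Agent.X40.VAR.many_pos lam hlam k
  refine ⟨min c1 c2, by positivity, max X1 X2, fun X hX => ⟨?_, ?_⟩⟩
  · have h3 := h1 X ((le_max_left _ _).trans hX)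
    have h4 : min c1 c2 * (X : ℝ) ≤ c1 * X := mul_le_mul_of_nonneg_right (min_le_left _ _) (Nat.cast_nonneg X)
    refine (h4.trans h3).trans ?_
    rw [Nat.cast_le]
    apply card_le_card_of_injOn (fun K : ℕ => -(K : ℤ))
    · intro K hK
      rw [mem_coe, mem_filter, mem_Icc] at hK
      rw [mem_coe, mem_filter, mem_Icc]
      refine ⟨by beta_reduce; constructor <;> omega, ?_⟩
      beta_reduce
      have h5 := P_eq K (lam * Real.log X)
      rw [hK.2] at h5
      exact_mod_cast h5
    · intro K _ K' _ h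
      simp only [neg_inj, Nat.cast_inj] at h
      exact h
  · have h3 := h2 X ((le_max_right _ _).trans hX)
    have h4 : min c1 c2 * (X : ℝ) ≤ c2 * X := mul_le_mul_of_nonneg_right (min_le_right _ _) (Nat.cast_nonneg X)
    refine (h4.trans h3).trans ?_
    rw [Nat.cast_le]
    apply card_le_card_of_injOn (fun K : ℕ => -(K : ℤ))
    · intro K hK
      rw [mem_coe, mem_filter, mem_Icc] at hK
      rw [mem_coe, mem_filter, mem_Icc]
      refine ⟨by beta_reduce; constructor <;> omega, ?_⟩
      beta_reduce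
      have h5 := P_eq K (lam * Real.log X)
      have h6 := hK.2
      rw [← h5] at h6
      exact_mod_cast h6
    · intro K _ K' _ h
      simp only [neg_inj, Nat.cast_inj] at h
      exact h

end Pool.Agent.Results.MP_391708_nt.NoneOrManyAtScaleLog
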