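import Mathlib
import Pool.Agent.X26.QS.Shift

/-!
# Primes `F(n) + a` for almost all `a`: all patterns of arguments at once, in the predicted order

Let `F` be an integer polynomial of degree `e ≥ 2`, for instance `F = n²`. For all but `ε N` of the integers
`|a| ≤ N`: if `F + a` has no fixed prime divisor, then in all windows `(A, A + X]` with `N ^ θ ≤ X ≤ N` in which
`F(n) + a` is between `2` and `κ X N ^ (1 - 1 / e)` (for `F = n²` and `a > 0` this allows all windows of length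
`≥ c √N` in `[1, C √N]`, for `a < 0` also short windows near `√|a|`), for every `D` between a power of `log X` and
`X`, for a positive proportion of the vectors `d ∈ [1, D] ^ m` and for ALL `F' ⊆ {0, …, k - 1} ^ m` containing `0`, the
number of the `n` for which all the `F(n + ∑ g_j d_j) + a`, `g ∈ F'`, are primes is at least a constant times the
number predicted by the conjectures of Hardy-Littlewood and Bateman-Horn.

Method: the order of the number of the primes `F(n) + a` in these windows for almost all `a` follows from the starting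
file `MP_51e72e_nt.OptimalScale`; a relative multidimensional Szemerédi theorem in windows of length `D` with an
enveloping sieve gives the patterns.
-/

set_option autoImplicit false

open Finset Polynomial

namespace Pool.Agent.Results.MP_391708_nt.PatternsForAlmostAllShifts

/-- no prime divides all the values of `f` -/
def NoFixedDivisor (f : ℤ[X]) : Prop := ∀ q : ℕ, q.Prime → ∃ n : ℤ, ¬ (q : ℤ) ∣ f.eval n

/-- the number of the zeros modulo `q` of the product of the polynomials `f (x + g_1 d_1 + … + g_m d_m)`, `g ∈ F` -/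
def omega (f : ℤ[X]) {m : ℕ} (d : Fin m → ℕ) (F : Finset (Fin m → ℕ)) (q : ℕ) : ℕ :=
  ((range q).filter (fun u : ℕ => ∃ g ∈ F, (q : ℤ) ∣ f.eval ((u : ℤ) + ∑ i, (g i : ℤ) * (d i : ℤ)))).card

/-- the product of `1 - w q / q` over the primes up to `X` -/
noncomputable def prod (w : ℕ → ℕ) (X : ℕ) : ℝ := ∏ q ∈ (Icc 1 X).filter Nat.Prime, (1 - (w q : ℝ) / q)

/-- the integers `g_1 d_1 + … + g_m d_m`, `g ∈ F` -/
def pat {m : ℕ} (d : Fin m → ℕ) (F : Finset (Fin m → ℕ)) : Finset ℕ := F.image (fun g => ∑ i, g i * d i)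

open Classical in
/-- the number of the `n` in `(A, A + X]` for which all the `n + g_1 d_1 + … + g_m d_m`, `g ∈ F`, are in `(A, A + X]`
and have a prime value `f` -/
noncomputable def count (f : ℤ[X]) (A X : ℕ) {m : ℕ} (d : Fin m → ℕ) (F : Finset (Fin m → ℕ)) : ℕ :=
  ((Ioc A (A + X)).filter (fun n => ∀ g ∈ F, n + ∑ i, g i * d i ≤ A + X ∧
    (f.eval ((n + ∑ i, g i * d i : ℕ) : ℤ)).natAbs.Prime)).card

/-- For at least `c D ^ m` vectors `d ∈ {1, …, D} ^ m` the following holds for ALL `F ⊆ {0, …, k - 1} ^ m` with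
`0 ∈ F`: the integers `∑ g_i d_i`, `g ∈ F`, are distinct; the product of the `f (x + ∑ g_i d_i)` has no fixed prime
divisor, that is `ω(q) < q` for its number `ω(q)` of zeros modulo every prime `q`; and for at least
`c X ∏_{q ≤ X} (1 - ω(q) / q)` of the `n ∈ (A, A + X]` all the `n + ∑ g_i d_i` are in this window and have a prime
value `f`. -/
def AllPatterns (c : ℝ) (m k A X D : ℕ) (f : ℤ[X]) : Prop :=
  ∃ G ⊆ Fintype.piFinset (fun _ : Fin m => Icc 1 D), c * (D : ℝ) ^ m ≤ (G.card : ℝ) ∧ ∀ d ∈ G,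
    ∀ F : Finset (Fin m → ℕ), (∀ g ∈ F, ∀ i, g i < k) → (fun _ => 0) ∈ F →
      (pat d F).card = F.card ∧ (∀ q : ℕ, q.Prime → omega f d F q < q) ∧
      c * (X * prod (omega f d F) X) ≤ (count f A X d F : ℝ)

/-- Let `F` be an integer polynomial of degree `e ≥ 2`, `θ, κ, ε > 0` and `m`, `k` given. There are `c > 0`, `B` and
`N₀` such that for all `N ≥ N₀` all but at most `ε N` integers `a` with `|a| ≤ N` have the following property: if
`F + a` has no fixed prime divisor, then `AllPatterns` holds for `F + a`, all windows `(A, A + X]` with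
`N ^ θ ≤ X ≤ N` and `2 ≤ F(n) + a ≤ κ X N ^ (1 - 1 / e)` for the `n` of the window, and all `D` with
`log ^ B X ≤ D ≤ X`. -/
theorem result (F : ℤ[X]) (hF : 2 ≤ F.natDegree) (m k : ℕ) (θ κ ε : ℝ) (hθ : 0 < θ) (hκ : 0 < κ) (hε : 0 < ε) :
    ∃ c : ℝ, 0 < c ∧ ∃ B N₀ : ℕ, ∀ N : ℕ, N₀ ≤ N → ∃ Bad ⊆ Icc (-(N : ℤ)) N, (#Bad : ℝ) ≤ ε * N ∧
      ∀ a ∈ Icc (-(N : ℤ)) N, a ∉ Bad → NoFixedDivisor (F + C a) → ∀ A X D : ℕ, (N : ℝ) ^ θ ≤ X → X ≤ N →
      (∀ n ∈ Ioc A (A + X), 2 ≤ F.eval (n : ℤ) + a ∧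
        ((F.eval (n : ℤ) + a : ℤ) : ℝ) ≤ κ * X * (N : ℝ) ^ (1 - 1 / (F.natDegree : ℝ))) →
      Real.log X ^ B ≤ D → D ≤ X → AllPatterns c m k A X D (F + C a) := by
  classical
  obtain ⟨δ, hδ, N₁, h1⟩ := Pool.Agent.X26.QS.dens F hF hθ hκ hε
  obtain ⟨c, hc, B, X₀, h2⟩ := Pool.Agent.X26.GP.sys m k F.natDegree hδ
  have h3 := ((tendsto_rpow_atTop hθ).comp (tendsto_natCast_atTop_atTop (R := ℝ))).eventually_ge_atTop (X₀ : ℝ)
  obtain ⟨N₂, hN₂⟩ := Filter.eventually_atTop.1 h3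
  refine ⟨c, hc, B, max N₁ N₂, fun N hN => ?_⟩
  obtain ⟨Bad, hB1, hB2, hB3⟩ := h1 N ((le_max_left _ _).trans hN)
  refine ⟨Bad, hB1, hB2, fun a ha haB hNF A X D hXN hXN' hval hBD hDX => ?_⟩
  have hX : X₀ ≤ X := by
    have h4 : (X₀ : ℝ) ≤ (N : ℝ) ^ θ := hN₂ N ((le_max_right _ _).trans hN)
    exact_mod_cast h4.trans hXN
  have hd := hB3 a ha haB hNF A X hXN hXN' hval
  have hdeg : (∏ _i : Fin 1, (F + C a)).natDegree ≤ F.natDegree := by
    rw [Fin.prod_univ_one, natDegree_add_C]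
  have hprod : (∏ _i : Fin 1, (F + C a)) = F + C a := by rw [Fin.prod_univ_one]
  have heval : ∀ n : ℤ, (F + C a).eval n = F.eval n + a := fun n => by rw [eval_add, eval_C]
  obtain ⟨G, g1, g2, g3⟩ := h2 X A D hX hBD hDX 1 (fun _ => F + C a) hdeg (by rw [hprod]; exact hNF)
    ((Ioc A (A + X)).filter (fun n : ℕ => (F.eval (n : ℤ) + a).natAbs.Prime)) (filter_subset _ _)
    (fun n hn i => by rw [heval]; exact (mem_filter.1 hn).2) (by rw [hprod]; exact hd)
  refine ⟨G, g1, g2, fun d hdG F' hF' h0 => ?_⟩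
  obtain ⟨k1, k2, k3⟩ := g3 d hdG F' hF' h0
  rw [hprod] at k2 k3
  refine ⟨k1, k2, k3.trans (Nat.cast_le.2 (card_le_card ?_))⟩
  intro n hn
  rw [mem_filter, mem_filter] at hn
  rw [mem_filter]
  refine ⟨hn.1.1, fun g hg => ?_⟩
  have h5 := hn.2 g hg
  rw [mem_filter, mem_Ioc] at h5
  rw [heval]
  exact ⟨h5.1.2, h5.2⟩

end Pool.Agent.Results.MP_391708_nt.PatternsForAlmostAllShifts
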