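import Pool.Agent.X40.VAR.V22

/-!
The variance of the number of primes `|n² + a|` at the critical distance `λ log X` from `√(-a)`:
it is that of a Poisson variable whose mean is the Hardy-Littlewood prediction `4 λ h_a`.

Method: write `-a = s² + r` with `0 ≤ r ≤ 2 s`. The pairs `(s + i, s + j)`, `i ≠ j`, give two
linear forms in `(s, r)` whose values have the difference `(j - i) (2 s + i + j)`, so that the pair
correlations, summed over ALL `(s, r)` with `s² + r` in a residue class modulo `W = ∏_{p ≤ w} p`, can be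
computed for every single pair `(i, j)` from the exponential sums of the primes minus their sieve
model and the fundamental lemma. Summing the singular series over `|i|, |j| ≤ λ log X` gives the second
moment in each residue class up to a relative error `2 / w`. Finally the constants `h_a` are close in
mean square to their partial products up to `w`: their mean squares are computed from second
moments of sieve weights over longer windows.
-/

set_option autoImplicit false

namespace Pool.Agent.Results.MP_391708_nt.PoissonVariance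

open Finset Filter Topology

/-- the product over the odd primes `w ≤ z` of `1 - (-a | w) / (w - 1)` -/
noncomputable def hcut (a : ℤ) (z : ℕ) : ℝ :=
  ∏ w ∈ (Finset.range (z + 1)).filter (fun w => Nat.Prime w ∧ w ≠ 2),
    (1 - (jacobiSym (-a) w : ℝ) / ((w : ℝ) - 1))

/-- the number of integers `n ≥ 0` with `|n - √(-a)| ≤ R` such that `|n² + a|` is a prime -/
noncomputable def P (a : ℤ) (R : ℝ) : ℕ :=
  {n : ℕ | |(n : ℝ) - √(-(a : ℝ))| ≤ R ∧ Nat.Prime ((n : ℤ) ^ 2 + a).natAbs}.ncard

lemma P_eq (K : ℕ) (R : ℝ) : (P (-(K : ℤ)) R : ℝ) = Pool.Agent.X40.VAR.NL R K := by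
  classical
  have hset : {n : ℕ | |(n : ℝ) - √(-((-(K : ℤ) : ℤ) : ℝ))| ≤ R ∧ Nat.Prime ((n : ℤ) ^ 2 + -(K : ℤ)).natAbs} =
      (((range (⌊√(K : ℝ) + R⌋₊ + 1)).filter (fun n : ℕ => |(n : ℝ) - √(K : ℝ)| ≤ R)).filter
        (fun n : ℕ => Nat.Prime ((n : ℤ) ^ 2 - K).natAbs) : Finset ℕ) := by
    ext n
    have e : (-((-(K : ℤ) : ℤ) : ℝ)) = (K : ℝ) := by push_cast; ring
    simp only [Set.mem_ofPred_eq, coe_filter, mem_filter, mem_range, e, ← sub_eq_add_neg]
    constructor
    · rintro ⟨h1, h2⟩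
      refine ⟨⟨?_, h1⟩, h2⟩
      rw [Nat.lt_succ_iff]
      apply Nat.le_floor
      linarith [(abs_le.1 h1).2]
    · rintro ⟨⟨-, h1⟩, h2⟩
      exact ⟨h1, h2⟩
  unfold P
  rw [hset, Set.ncard_coe_finset]
  unfold Pool.Agent.X40.VAR.NL Pool.Agent.X40.HLK.P1
  rw [sum_boole]

/-- **The variance of the number of primes `|n² + a|` near `√(-a)` is the Poisson variance.** For
all `U`, `λ > 0` and `ε > 0` and all large `X` there is a set `Bad` of at most `X / (log X)^U` integers
such that for all the other integers `-X ≤ a ≤ -1`: `-a` is not a square and the product `h_a`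
converges to a number `h_a > 0`; and, with `P_a(R)` the number of `n` with `|n - √(-a)| ≤ R` for which
`|n² + a|` is a prime, the sum over these `a` of `(P_a(λ log X) - 4 λ h_a)²` is `4 λ X` up to `ε X`. -/
theorem result : ∀ (U : ℕ) (lam ε : ℝ), 0 < lam → 0 < ε → ∃ X₀ : ℕ, ∀ X : ℕ, X₀ ≤ X →
    ∃ Bad ⊆ Icc (-(X : ℤ)) (-1), (#Bad : ℝ) ≤ X / Real.log X ^ U ∧ ∃ h : ℤ → ℝ,
      (∀ a ∈ Icc (-(X : ℤ)) (-1), a ∉ Bad →
        ¬ IsSquare (-a) ∧ 0 < h a ∧ Tendsto (fun z : ℕ => hcut a z) atTop (𝓝 (h a))) ∧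
      |∑ a ∈ Icc (-(X : ℤ)) (-1) \ Bad, ((P a (lam * Real.log X) : ℝ) - 4 * lam * h a) ^ 2 - 4 * lam * X| ≤ ε * X := by
  classical
  intro U lam ε hlam hε
  obtain ⟨X₀, h0⟩ := Pool.Agent.X40.VAR.var_main U lam ε hlam hε
  refine ⟨X₀, fun X hX => ?_⟩
  obtain ⟨Bad, hB1, hB2, h, hh, hs⟩ := h0 X hX
  refine ⟨Bad.image (fun K : ℕ => -(K : ℤ)), ?_, ?_, fun a => h a.natAbs, ?_, ?_⟩
  · intro a ha
    rw [mem_image] at ha
    obtain ⟨K, hK, rfl⟩ := ha
    have h1 := mem_Icc.1 (hB1 hK)
    rw [mem_Icc]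
    constructor <;> omega
  · refine le_trans ?_ hB2
    exact_mod_cast card_image_le
  · intro a ha haB
    rw [mem_Icc] at ha
    obtain ⟨K, rfl⟩ : ∃ K : ℕ, a = -(K : ℤ) := ⟨a.natAbs, by omega⟩
    obtain ⟨k1, k2, k3⟩ := hh K (by rw [mem_Icc]; omega) (fun hc => haB (mem_image.2 ⟨K, hc, rfl⟩))
    have e : (-(K : ℤ)).natAbs = K := by simp
    refine ⟨by rw [neg_neg]; exact k1, by simp only [e]; exact k2, ?_⟩
    simp only [e]
    have e2 : (fun z : ℕ => hcut (-(K : ℤ)) z) = fun z : ℕ => Pool.Agent.TH892.SW.HP (K : ℤ) z := by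
      funext z
      unfold hcut Pool.Agent.TH892.SW.HP
      rw [neg_neg]
    rw [e2]
    exact k3
  · have e3 : ∑ a ∈ Icc (-(X : ℤ)) (-1) \ Bad.image (fun K : ℕ => -(K : ℤ)),
        ((P a (lam * Real.log X) : ℝ) - 4 * lam * h a.natAbs) ^ 2 =
        ∑ K ∈ Icc 1 X \ Bad, (Pool.Agent.X40.VAR.NL (lam * Real.log X) K - 4 * lam * h K) ^ 2 := by
      symm
      refine sum_nbij' (fun K : ℕ => -(K : ℤ)) (fun a : ℤ => a.natAbs) ?_ ?_ ?_ ?_ ?_
      · intro K hK
        rw [Finset.mem_sdiff, mem_Icc] at hK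
        rw [Finset.mem_sdiff, mem_Icc, mem_image]
        refine ⟨by constructor <;> omega, ?_⟩
        rintro ⟨K', hK', he⟩
        have : K' = K := by omega
        rw [this] at hK'
        exact hK.2 hK'
      · intro a ha
        rw [Finset.mem_sdiff, mem_Icc, mem_image] at ha
        rw [Finset.mem_sdiff, mem_Icc]
        refine ⟨by constructor <;> omega, ?_⟩
        intro hc
        exact ha.2 ⟨a.natAbs, hc, by omega⟩
      · intro K _; simp
      · intro a ha
        rw [Finset.mem_sdiff, mem_Icc] at ha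
        omega
      · intro K _
        rw [P_eq]
        have e : (-(K : ℤ)).natAbs = K := by simp
        rw [e]
    simp only
    rw [e3]
    exact hs

end Pool.Agent.Results.MP_391708_nt.PoissonVariance
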