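import Pool.Agent.X40.HLK.E10

/-!
Simultaneous primes `|n² + a_1|, …, |n² + a_k|` near the square roots: the Hardy-Littlewood
asymptotic formula, with the true singular series, for almost all `k`-tuples `(a_1, …, a_k)` of
negative integers whose differences are at most `D`, where `D` may be as small as
`√X (log X)^B`, and in ALL windows of `n` on which the values are at most `D (log X)^C`.

Method: the second moment over the tuples in a box of `∏ 1_P(|n² + a_i|) - ∏ Λ_z(|n² + a_i|)`,
summed over short blocks of `n`, is by a telescoping identity bounded by correlations of the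
function `1_P - Λ_z` with itself at the shifts `n'² - n²`, which are controlled on average by the
exponential sums of this function, using that most of these shifts have few coincidences.
-/

set_option autoImplicit false

namespace Pool.Agent.Results.MP_391708_nt.SimultaneousPrimes

open Finset Filter Topology

/-- the number of `n` with `m < n ≤ N` such that all the `|n² + a_i|` are primes -/
def P {k : ℕ} (a : Fin k → ℤ) (m N : ℕ) : ℕ :=
  #((Ioc m N).filter (fun n : ℕ => ∀ i, Nat.Prime ((n : ℤ) ^ 2 + a i).natAbs))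

/-- the number of residues `r` modulo `p` for which `p` divides one of the `r² + a_i` -/
def nu {k : ℕ} (a : Fin k → ℤ) (p : ℕ) : ℕ :=
  #((range p).filter (fun r : ℕ => ∃ i, (p : ℤ) ∣ (r : ℤ) ^ 2 + a i))

/-- the product over the primes `p ≤ z` of `(1 - ν(p) / p) / (1 - 1 / p) ^ k` -/
noncomputable def singular {k : ℕ} (a : Fin k → ℤ) (z : ℕ) : ℝ :=
  ∏ p ∈ (range (z + 1)).filter Nat.Prime, (1 - (nu a p : ℝ) / p) / (1 - 1 / (p : ℝ)) ^ k

/-- no prime divides `∏ (n² + a_i)` for all `n` -/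
def Admissible {k : ℕ} (a : Fin k → ℤ) : Prop := ∀ p : ℕ, p.Prime → ∃ n : ℤ, ∀ i, ¬ (p : ℤ) ∣ n ^ 2 + a i

/-- the tuples of distinct integers `-X ≤ a_i ≤ -1` with `|a_i - a_j| ≤ D` for all `i, j` -/
def Tup (k X D : ℕ) : Set (Fin k → ℤ) :=
  {a | (∀ i, -(X : ℤ) ≤ a i ∧ a i ≤ -1) ∧ Function.Injective a ∧ ∀ i j, |a i - a j| ≤ D}

/-- **Simultaneous primes `|n² + a_1|, …, |n² + a_k|` near the square roots.** For all `k ≥ 1`,
`C`, `U` and `ε > 0` there are `B` and `X₀` such that for all `X ≥ X₀` and all `D` with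
`√X (log X)^B ≤ D ≤ X`, all but at most `X D^(k-1) / (log X)^U` of the tuples `(a_1, …, a_k)` of
distinct integers in `[-X, -1]` with `|a_i - a_j| ≤ D` have the following property: no `-a_i` is a
square, and if no prime divides `∏ (n² + a_i)` for all `n`, then the singular series converges to
a number `S > 0` and for ALL `m < N` such that `|n² + a_i| ≤ D (log X)^C` for `m < n ≤ N` and all
`i`, and such that `N - m ≥ D / (√X (log X)^C)`, the number of `n` with `m < n ≤ N` for which all
the `|n² + a_i|` are primes is `S (N - m) / (log D)^k` up to a relative error `ε`. -/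
theorem result : ∀ (k C U : ℕ) (ε : ℝ), 1 ≤ k → 0 < ε → ∃ B X₀ : ℕ, ∀ X : ℕ, X₀ ≤ X →
    ∀ D : ℕ, √(X : ℝ) * Real.log X ^ B ≤ D → D ≤ X → ∃ Bad : Finset (Fin k → ℤ),
      (#Bad : ℝ) ≤ X * (D : ℝ) ^ (k - 1) / Real.log X ^ U ∧
      ∀ a ∈ Tup k X D, a ∉ Bad → (∀ i, ¬ IsSquare (-(a i))) ∧
        (Admissible a → ∃ S : ℝ, 0 < S ∧ Tendsto (fun z : ℕ => singular a z) atTop (𝓝 S) ∧
          ∀ m N : ℕ, m < N → (∀ n ∈ Ioc m N, ∀ i, |(n : ℝ) ^ 2 + a i| ≤ D * Real.log X ^ C) →
            (D : ℝ) / (√(X : ℝ) * Real.log X ^ C) ≤ (N : ℝ) - m →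
            |(P a m N : ℝ) - S * ((N : ℝ) - m) / Real.log D ^ k| ≤
              ε * (S * ((N : ℝ) - m) / Real.log D ^ k)) := by
  classical
  intro k C U ε hk hε
  obtain ⟨B, X₀, h0⟩ := Pool.Agent.X40.HLK.simul k hk C U (min ε 1) (by positivity) (min_le_right _ _)
  refine ⟨B, X₀, fun X hX D hD1 hD2 => ?_⟩
  obtain ⟨Bad, hB1, hB2⟩ := h0 X hX D hD1 hD2
  refine ⟨Bad.image (fun K i => -(K i)), ?_, ?_⟩
  · refine le_trans ?_ hB1
    exact_mod_cast card_image_le
  rintro a ⟨ha1, ha2, ha3⟩ haB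
  obtain ⟨K, hK⟩ : ∃ K : Fin k → ℤ, K = fun i => -(a i) := ⟨_, rfl⟩
  have hKa : ∀ i, K i = -(a i) := fun i => by rw [hK]
  have hKB : K ∉ Bad := by
    intro hc
    apply haB
    rw [mem_image]
    refine ⟨K, hc, ?_⟩
    funext i
    rw [hKa, neg_neg]
  have hsub : ∀ (n : ℤ) i, n ^ 2 - K i = n ^ 2 + a i := by
    intro n i
    rw [hKa]; ring
  obtain ⟨h1, h2⟩ := hB2 K (fun i => by rw [hKa]; have := (ha1 i).2; omega) (fun i => by rw [hKa]; have := (ha1 i).1; omega)
    (fun i j hij hc => hij (ha2 (by rw [hKa, hKa] at hc; linarith)))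
    (fun i j => by
      have e : K i - K j = -(a i - a j) := by rw [hKa, hKa]; ring
      rw [e, abs_neg]
      exact ha3 i j) hKB
  refine ⟨fun i => by rw [← hKa]; exact h1 i, fun hadm => ?_⟩
  obtain ⟨S, hS, hlim, hw⟩ := h2 (by
    intro p hp
    obtain ⟨n, hn⟩ := hadm p hp
    refine ⟨n, fun i => ?_⟩
    rw [hsub]
    exact hn i)
  refine ⟨S, hS, ?_, ?_⟩
  · have e : (fun z : ℕ => singular a z) = fun z : ℕ =>
        (Pool.Agent.H373R2.T7.Vz z)⁻¹ ^ k * Pool.Agent.X40.HLK.VT K z := by
      funext z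
      have hpz : (range (z + 1)).filter Nat.Prime = Pool.Agent.H373R2.T7.pz z := by
        ext p
        rw [mem_filter, mem_range, Pool.Agent.H373R2.T7.mem_pz, Nat.lt_succ_iff]
      unfold singular
      rw [hpz, prod_div_distrib, prod_pow, inv_pow, mul_comm, ← div_eq_mul_inv]
      have e1 : ∏ p ∈ Pool.Agent.H373R2.T7.pz z, (1 - 1 / (p : ℝ)) = Pool.Agent.H373R2.T7.Vz z := rfl
      rw [e1]
      congr 1
      unfold Pool.Agent.X40.HLK.VT
      refine prod_congr rfl fun p _ => ?_
      have e2 : nu a p = Pool.Agent.X40.HLK.nuT K p := by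
        unfold nu Pool.Agent.X40.HLK.nuT
        congr 1
        apply filter_congr
        intro r _
        simp_rw [hsub]
      rw [e2]
    rw [e]
    exact hlim
  · intro m N hmN hv hΔ
    have h3 := hw m N hmN (by
      intro n hn i
      have h4 := hv n hn i
      have e : (n : ℝ) ^ 2 - (K i : ℝ) = (n : ℝ) ^ 2 + a i := by rw [hKa]; push_cast; ring
      rw [e]
      exact h4) hΔ
    have e : P a m N = #((Ioc m N).filter (fun n : ℕ => ∀ i, ((n : ℤ) ^ 2 - K i).natAbs.Prime)) := by
      unfold P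
      congr 1
      apply filter_congr
      intro n _
      simp_rw [hsub]
    rw [e]
    refine h3.trans ?_
    apply mul_le_mul_of_nonneg_right (min_le_left _ _)
    have h5 : (0 : ℝ) ≤ (N : ℝ) - m := by
      have : (m : ℝ) ≤ N := by exact_mod_cast hmN.le
      linarith
    have h6 : 0 ≤ Real.log (D : ℝ) := Real.log_natCast_nonneg D
    positivity

end Pool.Agent.Results.MP_391708_nt.SimultaneousPrimes
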